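import Pool.Agent.W394.BQN.Stm

/-!
# BQN-LIFT: lifting special linear matrices over polynomial rings (helper416)

Adaptation of `BQ.lift_mv`.
-/

set_option autoImplicit false

open Polynomial

noncomputable section

namespace Pool.Agent.W416.BQN

open BQ Pool.Agent.W394.BQN

section q2

variable {A W : Type} [CommRing A] [IsDomain A] [CommRing W] [IsDomain W]

theorem map_mem_S2 (q : A →+* W) (f : A[X]) (hf : f ∈ S2 A) : f.map q ∈ S2 W := by
  obtain ⟨a, g, h1, h2, h3⟩ := E.factor_aux f hf.1 hf.2
  rw [h1, Polynomial.map_mul, Polynomial.map_pow, Polynomial.map_X]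
  exact E.mem_S2_of a (g.map q) (h2.map q) (by rw [coeff_map, h3, map_one])

/-- the map `A[X] → W[X] → VV W` -/
def pq (q : A →+* W) : A[X] →+* VV W := (algebraMap W[X] (VV W)).comp (mapRingHom q)

theorem pq_unit (q : A →+* W) (f : S2 A) : IsUnit (pq q f) :=
  IsLocalization.map_units (VV W) (⟨(f : A[X]).map q, map_mem_S2 q f f.2⟩ : S2 W)

/-- the induced map -/
def q2 (q : A →+* W) : VV A →+* VV W := IsLocalization.lift (M := S2 A) (pq_unit q)

theorem q2_algebraMap (q : A →+* W) (p : A[X]) :
    q2 q (algebraMap A[X] (VV A) p) = algebraMap W[X] (VV W) (p.map q) :=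
  IsLocalization.lift_eq (pq_unit q) p

theorem q2_surjective (q : A →+* W) (hq : Function.Surjective q) :
    Function.Surjective (q2 q) := by
  intro z
  obtain ⟨P, h, rfl⟩ := IsLocalization.exists_mk'_eq (S2 W) z
  obtain ⟨G, hG, hGh⟩ := E.lift_S2 q hq (h : W[X]) h.2.1 h.2.2
  obtain ⟨P', hP'⟩ := Polynomial.map_surjective q hq P
  refine ⟨IsLocalization.mk' (VV A) P' (⟨G, hG⟩ : S2 A), ?_⟩
  rw [q2, IsLocalization.lift_mk'_spec]
  show algebraMap W[X] (VV W) (P'.map q) = algebraMap W[X] (VV W) (G.map q) * _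
  rw [hP', hGh, mul_comm]
  exact (IsLocalization.mk'_spec (VV W) P h).symm

end q2

open N in
theorem t_LIFT (h1 : S_LIFT0) (h2 : S_VV) : S_LIFT := by
  intro n
  induction n with
  | zero =>
    intro A _ _ W _ _ _ hW q hq s γ hγ
    set e := (MvPolynomial.isEmptyRingEquiv W (Fin 0)) with he
    obtain ⟨Δ, hΔ, hΔγ⟩ := h1 W hW A q hq s (γ.map (e : MvPolynomial (Fin 0) W →+* W)) (by
      have : (e : MvPolynomial (Fin 0) W →+* W) γ.det = (γ.map _).det := RingHom.map_det _ _
      rw [← this, hγ, map_one])
    refine ⟨Δ.map (MvPolynomial.C : A →+* MvPolynomial (Fin 0) A), ?_, ?_⟩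
    · have : (MvPolynomial.C : A →+* MvPolynomial (Fin 0) A) Δ.det = (Δ.map _).det :=
        RingHom.map_det _ _
      rw [← this, hΔ, map_one]
    · ext1 i j
      have h1 := congrFun (congrFun hΔγ i) j
      simp only [Matrix.map_apply] at h1 ⊢
      rw [MvPolynomial.map_C, h1]
      exact e.symm_apply_apply (γ i j)
  | succ n ih =>
    intro A _ _ W _ _ _ hW q hq s γ hγ
    obtain ⟨ι', hL, hC, hX⟩ := locRel_mv (RingHom.id A) (algebraMap A[X] (VV A))
      (locRel_base A) n
    obtain ⟨τ, hτL, hτC, hτX⟩ := locRel_mv (RingHom.id W) (algebraMap W[X] (VV W))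
      (locRel_base W) n
    have hcomm : (MvPolynomial.map (q2 q)).comp ι' =
        τ.comp (mapRingHom (MvPolynomial.map q)) := by
      apply Polynomial.ringHom_ext'
      · apply MvPolynomial.ringHom_ext
        · intro r
          have h1 := hC (C r)
          have h3 := hτC (C (q r))
          rw [Polynomial.map_C] at h1 h3
          simp only [RingHom.comp_apply, coe_mapRingHom, Polynomial.map_C, MvPolynomial.map_C]
          rw [h1, MvPolynomial.map_C, q2_algebraMap, Polynomial.map_C, h3]
        · intro i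
          simp only [RingHom.comp_apply, coe_mapRingHom, Polynomial.map_C, MvPolynomial.map_X]
          rw [hX i, MvPolynomial.map_X, hτX i]
      · have h1 := hC X
        have h3 := hτC X
        rw [Polynomial.map_X] at h1 h3
        simp only [RingHom.comp_apply, coe_mapRingHom, Polynomial.map_X]
        rw [h1, MvPolynomial.map_C, q2_algebraMap, Polynomial.map_X, h3]
    have hτ := hτL.inj
    set e := (MvPolynomial.finSuccEquiv W n) with he
    set γ₁ : Matrix (Fin s) (Fin s) (MvPolynomial (Fin n) W)[X] :=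
      γ.map (e : MvPolynomial (Fin (n + 1)) W →+* (MvPolynomial (Fin n) W)[X]) with hγ₁
    have hγ₁d : γ₁.det = 1 := by
      have : (e : MvPolynomial (Fin (n + 1)) W →+* (MvPolynomial (Fin n) W)[X]) γ.det =
        (γ.map _).det := RingHom.map_det _ _
      rw [hγ₁, ← this, hγ, map_one]
    obtain ⟨D, hD, hDγ⟩ := ih (VV A) (VV W) (h2 W hW) (q2 q) (q2_surjective q hq) s
      (γ₁.map τ) (by
        have : τ γ₁.det = (γ₁.map _).det := RingHom.map_det _ _
        rw [← this, hγ₁d, map_one])
    obtain ⟨f, hf, c, hc⟩ := common ((MvPolynomial.C : A →+* MvPolynomial (Fin n) A).comp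
      (RingHom.id A)) ι' hL (α := (Fin s × Fin s) ⊕ (Fin s × Fin s))
      (Sum.elim (fun p => D p.1 p.2) (fun p => D.adjugate p.1 p.2))
    set h : (MvPolynomial (Fin n) A)[X] := f.map ((MvPolynomial.C :
      A →+* MvPolynomial (Fin n) A).comp (RingHom.id A)) with hh
    have hmon : h.Monic := Monic.map _ hf.1
    set Γ : Matrix (Fin s) (Fin s) (MvPolynomial (Fin n) A)[X] := fun i j => c (Sum.inl (i, j))
      with hΓ
    set Γ' : Matrix (Fin s) (Fin s) (MvPolynomial (Fin n) A)[X] := fun i j => c (Sum.inr (i, j))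
      with hΓ'
    have k1 : Γ.map ι' = ι' h • D := by
      ext1 i j
      exact (hc (Sum.inl (i, j))).symm
    have k2 : Γ'.map ι' = ι' h • D.adjugate := by
      ext1 i j
      exact (hc (Sum.inr (i, j))).symm
    have k3 : Γ * Γ' = (h * h) • (1 : Matrix (Fin s) (Fin s) (MvPolynomial (Fin n) A)[X]) := by
      have h1 : (Γ * Γ').map ι' = ((h * h) • (1 : Matrix (Fin s) (Fin s)
          (MvPolynomial (Fin n) A)[X])).map ι' := by
        rw [Matrix.map_mul, k1, k2, map_smul_ring, Matrix.smul_mul, Matrix.mul_smul,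
          Matrix.mul_adjugate, hD, one_smul, smul_smul, map_mul]
        simp
      ext1 i j
      exact hL.inj (congrFun (congrFun h1 i) j)
    have k4 : Γ.map (mapRingHom (MvPolynomial.map q)) = (h.map (MvPolynomial.map q)) • γ₁ := by
      have h1 : (Γ.map (mapRingHom (MvPolynomial.map q))).map τ =
          ((h.map (MvPolynomial.map q)) • γ₁).map τ := by
        have h2 : (Γ.map (mapRingHom (MvPolynomial.map q))).map τ =
            (Γ.map ι').map (MvPolynomial.map (q2 q)) := by
          ext1 i j
          exact (RingHom.congr_fun hcomm (Γ i j)).symm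
        have h3 : (ι' h • D).map (MvPolynomial.map (q2 q)) =
            (MvPolynomial.map (q2 q) (ι' h)) • D.map (MvPolynomial.map (q2 q)) := by
          ext1 i j
          exact map_mul (MvPolynomial.map (q2 q)) (ι' h) (D i j)
        rw [h2, k1, h3, map_smul_ring, hDγ]
        congr 1
        exact RingHom.congr_fun hcomm h
      ext1 i j
      exact hτ (congrFun (congrFun h1 i) j)
    obtain ⟨Δ, hΔ1, hΔ2⟩ := lift_var (MvPolynomial.map q) (MvPolynomial.map_surjective q hq)
      γ₁ hγ₁d h hmon Γ Γ' k3 k4 (fun δ hδ => ih A W hW q hq s δ hδ)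
    set e' := (MvPolynomial.finSuccEquiv A n) with he'
    refine ⟨Δ.map (e'.symm : (MvPolynomial (Fin n) A)[X] →+* MvPolynomial (Fin (n + 1)) A),
      ?_, ?_⟩
    · have : (e'.symm : (MvPolynomial (Fin n) A)[X] →+* MvPolynomial (Fin (n + 1)) A) Δ.det =
        (Δ.map _).det := RingHom.map_det _ _
      rw [← this, hΔ1, map_one]
    · have hcomm2 : (e : MvPolynomial (Fin (n + 1)) W →+* (MvPolynomial (Fin n) W)[X]).comp
          (MvPolynomial.map q) = (mapRingHom (MvPolynomial.map q)).comp
          (e' : MvPolynomial (Fin (n + 1)) A →+* (MvPolynomial (Fin n) A)[X]) := by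
        apply MvPolynomial.ringHom_ext
        · intro r
          simp [he, he', MvPolynomial.finSuccEquiv_apply]
        · intro i
          refine Fin.cases ?_ (fun i => ?_) i
          · simp [he, he', MvPolynomial.finSuccEquiv_apply]
          · simp [he, he', MvPolynomial.finSuccEquiv_apply]
      ext1 i j
      apply e.injective
      have h1 := RingHom.congr_fun hcomm2 (e'.symm (Δ i j))
      have h2 := congrFun (congrFun hΔ2 i) j
      simp only [Matrix.map_apply] at h2 ⊢
      refine Eq.trans h1 ?_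
      show mapRingHom (MvPolynomial.map q) (e' (e'.symm (Δ i j))) = _
      rw [AlgEquiv.apply_symm_apply, h2]
      rfl

end Pool.Agent.W416.BQN
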